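import Pool.Agent.Helper21.WE.Stmts
import Mathlib

/-!
# Tensor decomposition (row TNS)
-/

set_option autoImplicit false

open Matrix

namespace MT

namespace TNS84

section abs

variable {K A V : Type} [Field K] [Ring A] [Algebra K A] [AddCommGroup V] [Module K V]
  [Module A V] [IsScalarTower K A V] [FiniteDimensional K V]

include K in
/-- the module is a power of a simple module -/
theorem power [Nontrivial V]
    (hst : ∀ W : Submodule A V, (∀ f : V →ₗ[A] V, W ≤ W.comap f) → W = ⊥ ∨ W = ⊤) :
    ∃ (S : Submodule A V) (_ : IsSimpleModule A S) (u : ℕ), Nonempty (V ≃ₗ[A] (Fin u → S)) := by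
  have : IsArtinian A V := isArtinian_of_tower K inferInstance
  obtain ⟨S, hS⟩ := IsAtomic.exists_atom (Submodule A V)
  rw [← isSimpleModule_iff_isAtom] at hS
  have htop : isotypicComponent A V S = ⊤ := by
    rcases hst (isotypicComponent A V S) fun f => LinearMap.le_comap_isotypicComponent S f
      with h | h
    · exact absurd h (bot_lt_isotypicComponent S).ne'
    · exact h
  have : IsSemisimpleModule A V := by
    refine IsSemisimpleModule.of_sSup_simples_eq_top ?_
    rw [eq_top_iff, ← htop]
    refine sSup_le_sSup ?_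
    rintro m ⟨e⟩
    exact IsSimpleModule.congr e
  have : Module.Finite A V := Module.Finite.of_restrictScalars_finite K _ _
  obtain ⟨u, e⟩ := (IsIsotypicOfType.of_isotypicComponent_eq_top htop).linearEquiv_fun
  exact ⟨S, hS, u, e⟩

/-- the tensor basis -/
theorem tens [IsAlgClosed K] [Nontrivial V]
    (hst : ∀ W : Submodule A V, (∀ f : V →ₗ[A] V, W ≤ W.comap f) → W = ⊥ ∨ W = ⊤) :
    ∃ (r u : ℕ) (b : Module.Basis (Fin r × Fin u) K V),
      (∀ f : V →ₗ[A] V,
        ∃ X : Matrix (Fin u) (Fin u) K, ∀ k j, f (b (k, j)) = ∑ i, X i j • b (k, i)) ∧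
      ∀ c : A, ∃ Y : Matrix (Fin r) (Fin r) K, ∀ k j,
        c • b (k, j) = ∑ l, Y l k • b (l, j) := by
  obtain ⟨S, hS, u, ⟨φ⟩⟩ := power (K := K) hst
  have hfd : FiniteDimensional K S := by
    have := (inferInstance : FiniteDimensional K (S.restrictScalars K))
    exact this
  let bS : Module.Basis (Fin (Module.finrank K S)) K S := Module.finBasis K S
  let b0 : Module.Basis (Σ _ : Fin u, Fin (Module.finrank K S)) K (Fin u → S) :=
    Pi.basis fun _ => bS
  let b1 : Module.Basis (Σ _ : Fin u, Fin (Module.finrank K S)) K V :=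
    b0.map (φ.restrictScalars K).symm
  let en : (Σ _ : Fin u, Fin (Module.finrank K S)) ≃ Fin (Module.finrank K S) × Fin u :=
    (Equiv.sigmaEquivProd _ _).trans (Equiv.prodComm _ _)
  have hb : ∀ k j, (b1.reindex en) (k, j) = φ.symm (Pi.single j (bS k)) := by
    intro k j
    rw [Module.Basis.reindex_apply]
    change (φ.restrictScalars K).symm (b0 ⟨j, k⟩) = _
    rw [Pi.basis_apply]
    rfl
  refine ⟨Module.finrank K S, u, b1.reindex en, ?_, ?_⟩
  · intro f
    have hsch : ∀ g : S →ₗ[A] S, ∃ t : K, ∀ s, g s = t • s := by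
      intro g
      obtain ⟨t, ht⟩ := (IsSimpleModule.algebraMap_end_bijective_of_isAlgClosed (A := A) (V := S)
        K).2 g
      refine ⟨t, fun s => ?_⟩
      rw [← ht]
      rfl
    have hc : ∀ i j : Fin u, ∃ t : K, ∀ s : S, φ (f (φ.symm (Pi.single j s))) i = t • s := by
      intro i j
      exact hsch ((LinearMap.proj i : (Fin u → S) →ₗ[A] S) ∘ₗ φ.toLinearMap ∘ₗ f ∘ₗ
        φ.symm.toLinearMap ∘ₗ LinearMap.single A (fun _ : Fin u => S) j)
    choose X hX using hc
    refine ⟨Matrix.of X, fun k j => ?_⟩
    rw [hb]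
    apply φ.injective
    rw [map_sum]
    funext i
    rw [hX, Finset.sum_apply, Finset.sum_eq_single i]
    · rw [hb, ← LinearEquiv.restrictScalars_apply K φ, map_smul]
      simp
    · intro l _ hl
      rw [hb, ← LinearEquiv.restrictScalars_apply K φ, map_smul]
      simp [Ne.symm hl]
    · simp
  · intro c
    refine ⟨Matrix.of fun l k => bS.repr (c • bS k) l, fun k j => ?_⟩
    rw [hb, ← map_smul]
    apply φ.injective
    rw [LinearEquiv.apply_symm_apply, map_sum]
    have h1 : c • bS k = ∑ l, bS.repr (c • bS k) l • bS l := (bS.sum_repr _).symm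
    have h2 : c • (Pi.single j (bS k) : Fin u → S) =
        ∑ l, bS.repr (c • bS k) l • (Pi.single j (bS l) : Fin u → S) := by
      funext i
      rw [Finset.sum_apply]
      by_cases hij : i = j
      · subst hij
        simp only [Pi.smul_apply, Pi.single_eq_same]
        exact h1
      · simp [hij]
    rw [h2]
    refine Finset.sum_congr rfl fun l _ => ?_
    rw [hb]
    change _ = φ.restrictScalars K (bS.repr (c • bS k) l • φ.symm (Pi.single j (bS l)))
    rw [LinearEquiv.map_smul (φ.restrictScalars K), LinearEquiv.restrictScalars_apply,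
      LinearEquiv.apply_symm_apply]

end abs

section mat

variable {K : Type} [Field K] {n : ℕ}

/-- the algebra generated by `C` -/
def AA (C : Submodule K (Matrix (Fin n) (Fin n) K)) :
    Subalgebra K (Module.End K (Fin n → K)) :=
  Algebra.adjoin K {f | ∃ c ∈ C, f = Matrix.toLin' c}

variable (C : Submodule K (Matrix (Fin n) (Fin n) K))

theorem comm_of {x : Matrix (Fin n) (Fin n) K} (hx : ∀ c ∈ C, x * c = c * x)
    (f : Module.End K (Fin n → K)) (hf : f ∈ AA C) (v : Fin n → K) :
    x.mulVec (f v) = f (x.mulVec v) := by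
  have h1 : AA C ≤ Subalgebra.centralizer K {Matrix.toLin' x} := by
    refine Algebra.adjoin_le ?_
    rintro g ⟨c, hc, rfl⟩
    rw [SetLike.mem_coe, Subalgebra.mem_centralizer_iff]
    rintro g hg
    rw [Set.mem_singleton_iff] at hg
    subst hg
    refine LinearMap.ext fun v => ?_
    simp only [Module.End.mul_apply, Matrix.toLin'_apply, Matrix.mulVec_mulVec, hx c hc]
  have h2 := h1 hf
  rw [Subalgebra.mem_centralizer_iff] at h2
  have h3 := h2 _ (Set.mem_singleton _)
  have h4 := LinearMap.congr_fun h3 v
  simpa using h4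

/-- a matrix commuting with `C` as a linear map over the algebra -/
def asLin (x : Matrix (Fin n) (Fin n) K) (hx : ∀ c ∈ C, x * c = c * x) :
    (Fin n → K) →ₗ[AA C] (Fin n → K) where
  toFun v := x.mulVec v
  map_add' _ _ := Matrix.mulVec_add _ _ _
  map_smul' f v := comm_of C hx f.1 f.2 v

/-- an element of `C` in the algebra -/
def elt (c : Matrix (Fin n) (Fin n) K) (hc : c ∈ C) : AA C :=
  ⟨Matrix.toLin' c, Algebra.subset_adjoin ⟨c, hc, rfl⟩⟩

theorem elt_smul (c : Matrix (Fin n) (Fin n) K) (hc : c ∈ C) (v : Fin n → K) :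
    elt C c hc • v = c.mulVec v := by
  change Matrix.toLin' c v = _
  rw [Matrix.toLin'_apply]

theorem kr_apply {r u : ℕ} (A : Matrix (Fin r) (Fin r) K) (B : Matrix (Fin u) (Fin u) K)
    (k l : Fin r) (i j : Fin u) : Matrix.kronecker A B (k, i) (l, j) = A k l * B i j := rfl

theorem mtens [IsAlgClosed K] (hn : 0 < n) (a : Submodule K (Matrix (Fin n) (Fin n) K))
    (hirr : LIrr a)
    (hdec : ∀ X ∈ a, ∃ x ∈ a, ∃ y ∈ C, X = x + y ∧ ∀ B ∈ C, x * B = B * x) :
    ∃ (r u : ℕ) (b : Module.Basis (Fin r × Fin u) K (Fin n → K)),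
      (∀ x : Matrix (Fin n) (Fin n) K, (∀ c ∈ C, x * c = c * x) →
        ∃ X : Matrix (Fin u) (Fin u) K,
          LinearMap.toMatrix b b (Matrix.toLin' x) =
            Matrix.kronecker (1 : Matrix (Fin r) (Fin r) K) X) ∧
      ∀ c ∈ C, ∃ Y : Matrix (Fin r) (Fin r) K,
          LinearMap.toMatrix b b (Matrix.toLin' c) =
            Matrix.kronecker Y (1 : Matrix (Fin u) (Fin u) K) := by
  have : NeZero n := ⟨hn.ne'⟩
  have hnt : Nontrivial (Fin n → K) := inferInstance
  have hst : ∀ W : Submodule (AA C) (Fin n → K),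
      (∀ f : (Fin n → K) →ₗ[AA C] (Fin n → K), W ≤ W.comap f) → W = ⊥ ∨ W = ⊤ := by
    intro W hW
    have h1 : ∀ A ∈ a, ∀ v ∈ W.restrictScalars K, A.mulVec v ∈ W.restrictScalars K := by
      intro A hA v hv
      rw [Submodule.restrictScalars_mem] at hv ⊢
      obtain ⟨x, -, y, hy, rfl, hxy⟩ := hdec A hA
      rw [Matrix.add_mulVec]
      refine Submodule.add_mem _ ?_ ?_
      · exact hW (asLin C x hxy) hv
      · rw [← elt_smul C y hy]
        exact Submodule.smul_mem _ _ hv
    rcases hirr _ h1 with h | h
    · left; rwa [Submodule.restrictScalars_eq_bot_iff] at h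
    · right; rwa [Submodule.restrictScalars_eq_top_iff] at h
  obtain ⟨r, u, b, h1, h2⟩ := @tens K (AA C) (Fin n → K) _ _ _ _ _ _ _ _ _ _ hst
  refine ⟨r, u, b, fun x hx => ?_, fun c hc => ?_⟩
  · obtain ⟨X, hX⟩ := h1 (asLin C x hx)
    refine ⟨X, ?_⟩
    ext ⟨k, i⟩ ⟨l, j⟩
    have h3 : (Matrix.toLin' x) (b (l, j)) = ∑ i, X i j • b (l, i) := by
      rw [Matrix.toLin'_apply]; exact hX l j
    rw [LinearMap.toMatrix_apply, h3, map_sum, Finsupp.finsetSum_apply]
    simp only [map_smul, Module.Basis.repr_self, Finsupp.smul_apply, smul_eq_mul,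
      Finsupp.single_apply, Prod.mk.injEq, kr_apply, Matrix.one_apply]
    by_cases hkl : l = k
    · subst hkl; simp
    · simp [hkl, Ne.symm hkl]
  · obtain ⟨Y, hY⟩ := h2 (elt C c hc)
    refine ⟨Y, ?_⟩
    ext ⟨k, i⟩ ⟨l, j⟩
    have h3 : (Matrix.toLin' c) (b (l, j)) = ∑ k, Y k l • b (k, j) := by
      rw [Matrix.toLin'_apply, ← elt_smul C c hc]; exact hY l j
    rw [LinearMap.toMatrix_apply, h3, map_sum, Finsupp.finsetSum_apply]
    simp only [map_smul, Module.Basis.repr_self, Finsupp.smul_apply, smul_eq_mul,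
      Finsupp.single_apply, Prod.mk.injEq, kr_apply, Matrix.one_apply]
    by_cases hij : j = i
    · subst hij; simp
    · simp [hij, Ne.symm hij]

/-- the coordinates with first index `k` lie in `U` -/
def WU {r u : ℕ} (b : Module.Basis (Fin r × Fin u) K (Fin n → K))
    (U : Submodule K (Fin u → K)) : Submodule K (Fin n → K) where
  carrier := {v | ∀ k, (fun i => b.repr v (k, i)) ∈ U}
  add_mem' := by
    intro v w hv hw k
    have := U.add_mem (hv k) (hw k)
    convert this using 1
    funext i
    simp
  zero_mem' := by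
    intro k
    convert U.zero_mem using 1
    funext i
    simp
  smul_mem' := by
    intro t v hv k
    have := U.smul_mem t (hv k)
    convert this using 1
    funext i
    simp

theorem scal [IsAlgClosed K] (hn : 0 < n) (a : Submodule K (Matrix (Fin n) (Fin n) K))
    (hirr : LIrr a)
    (hdec : ∀ X ∈ a, ∃ x ∈ a, ∃ y ∈ C, X = x + y ∧ ∀ B ∈ C, x * B = B * x)
    {r u : ℕ} (b : Module.Basis (Fin r × Fin u) K (Fin n → K))
    (h1 : ∀ x : Matrix (Fin n) (Fin n) K, (∀ c ∈ C, x * c = c * x) →
        ∃ X : Matrix (Fin u) (Fin u) K,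
          LinearMap.toMatrix b b (Matrix.toLin' x) =
            Matrix.kronecker (1 : Matrix (Fin r) (Fin r) K) X)
    (h2 : ∀ c ∈ C, ∃ Y : Matrix (Fin r) (Fin r) K,
          LinearMap.toMatrix b b (Matrix.toLin' c) =
            Matrix.kronecker Y (1 : Matrix (Fin u) (Fin u) K))
    (y : Matrix (Fin n) (Fin n) K)
    (hy : ∀ x ∈ a, (∀ c ∈ C, x * c = c * x) → x * y = y * x) :
    ∃ Y : Matrix (Fin r) (Fin r) K,
      LinearMap.toMatrix b b (Matrix.toLin' y) =
        Matrix.kronecker Y (1 : Matrix (Fin u) (Fin u) K) := by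
  have : NeZero n := ⟨hn.ne'⟩
  have hne : Nonempty (Fin r × Fin u) := b.index_nonempty
  obtain ⟨⟨k0, i0⟩⟩ := hne
  have : Nonempty (Fin u) := ⟨i0⟩
  have hntu : Nontrivial (Fin u → K) := inferInstance
  -- the blocks
  have hblk : ∀ k l : Fin r, ∃ t : K, ∀ i j : Fin u,
      LinearMap.toMatrix b b (Matrix.toLin' y) (k, i) (l, j) = if i = j then t else 0 := by
    intro k l
    set W : Matrix (Fin u) (Fin u) K := Matrix.of fun i j =>
      LinearMap.toMatrix b b (Matrix.toLin' y) (k, i) (l, j) with hW
    obtain ⟨t, ht⟩ := Module.End.exists_eigenvalue (Matrix.toLin' W)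
    set U := Module.End.eigenspace (Matrix.toLin' W) t with hU
    have hUne : U ≠ ⊥ := ht
    have hWU := hirr (WU b U) (by
      intro A hA v hv
      obtain ⟨x, hxa, z, hz, rfl, hxz⟩ := hdec A hA
      rw [Matrix.add_mulVec]
      refine Submodule.add_mem _ ?_ ?_
      · obtain ⟨X, hX⟩ := h1 x hxz
        -- `X` commutes with `W`
        have hXW : X * W = W * X := by
          have h3 : LinearMap.toMatrix b b (Matrix.toLin' x) *
              LinearMap.toMatrix b b (Matrix.toLin' y) =
              LinearMap.toMatrix b b (Matrix.toLin' y) *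
              LinearMap.toMatrix b b (Matrix.toLin' x) := by
            rw [← LinearMap.toMatrix_mul, ← LinearMap.toMatrix_mul, Module.End.mul_eq_comp,
              Module.End.mul_eq_comp, ← Matrix.toLin'_mul, ← Matrix.toLin'_mul, hy x hxa hxz]
          ext i j
          have h4 := congrFun (congrFun h3 (k, i)) (l, j)
          rw [hX, Matrix.mul_apply, Matrix.mul_apply, Fintype.sum_prod_type,
            Fintype.sum_prod_type] at h4
          simp only [kr_apply, Matrix.one_apply, ite_mul, mul_ite, one_mul,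
            zero_mul, mul_zero] at h4
          rw [Matrix.mul_apply, Matrix.mul_apply]
          rw [Finset.sum_eq_single k, Finset.sum_eq_single l] at h4
          · simp only [if_true] at h4
            exact h4
          · intro q _ hq
            simp [hq]
          · simp
          · intro q _ hq
            simp [Ne.symm hq]
          · simp
        intro k'
        have h5 : (fun i => b.repr (x.mulVec v) (k', i)) =
            X.mulVec (fun i => b.repr v (k', i)) := by
          funext i
          have h6 := congrFun (LinearMap.toMatrix_mulVec_repr b b (Matrix.toLin' x) v) (k', i)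
          rw [Matrix.toLin'_apply, hX] at h6
          rw [← h6, Matrix.mulVec, Matrix.mulVec, dotProduct, dotProduct, Fintype.sum_prod_type,
            Finset.sum_eq_single k']
          · refine Finset.sum_congr rfl fun j _ => ?_
            rw [kr_apply, Matrix.one_apply_eq, one_mul]
          · intro q _ hq
            refine Finset.sum_eq_zero fun j _ => ?_
            rw [kr_apply, Matrix.one_apply_ne (Ne.symm hq), zero_mul, zero_mul]
          · simp
        rw [h5]
        have h7 := hv k'
        rw [hU, Module.End.mem_eigenspace_iff, Matrix.toLin'_apply] at h7 ⊢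
        rw [Matrix.mulVec_mulVec, ← hXW, ← Matrix.mulVec_mulVec, h7, Matrix.mulVec_smul]
      · obtain ⟨Y, hY⟩ := h2 z hz
        intro k'
        have h5 : (fun i => b.repr (z.mulVec v) (k', i)) =
            ∑ l, Y k' l • (fun i => b.repr v (l, i)) := by
          funext i
          have h6 := congrFun (LinearMap.toMatrix_mulVec_repr b b (Matrix.toLin' z) v) (k', i)
          rw [Matrix.toLin'_apply, hY] at h6
          rw [← h6, Matrix.mulVec, dotProduct, Fintype.sum_prod_type, Finset.sum_apply]
          refine Finset.sum_congr rfl fun l _ => ?_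
          rw [Finset.sum_eq_single i]
          · rw [kr_apply, Matrix.one_apply_eq, mul_one]
            rfl
          · intro q _ hq
            rw [kr_apply, Matrix.one_apply_ne (Ne.symm hq), mul_zero, zero_mul]
          · simp
        rw [h5]
        exact U.sum_mem fun l _ => U.smul_mem _ (hv l))
    have hvec : ∀ z : Fin u → K, ∀ q : Fin r × Fin u,
        b.repr (∑ i, z i • b (k0, i)) q = if q.1 = k0 then z q.2 else 0 := by
      intro z q
      rw [map_sum, Finsupp.finsetSum_apply]
      simp only [map_smul, Module.Basis.repr_self, Finsupp.smul_apply, smul_eq_mul,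
        Finsupp.single_apply, Prod.ext_iff]
      by_cases hq : q.1 = k0
      · rw [Finset.sum_eq_single q.2]
        · simp [hq]
        · intro i _ hi
          simp [hi]
        · simp
      · simp [hq, Ne.symm hq]
    have hmem : ∀ z : Fin u → K, z ∈ U ↔ (∑ i, z i • b (k0, i)) ∈ WU b U := by
      intro z
      constructor
      · intro hz k'
        by_cases hk : k' = k0
        · convert hz using 1
          funext i
          rw [hvec]; simp [hk]
        · convert U.zero_mem using 1
          funext i
          rw [hvec]; simp [hk]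
      · intro hz
        have := hz k0
        convert this using 1
        funext i
        rw [hvec]; simp
    have hUtop : U = ⊤ := by
      rcases hWU with h | h
      · exfalso
        apply hUne
        rw [eq_bot_iff]
        intro z hz
        have h8 := (hmem z).1 hz
        rw [h, Submodule.mem_bot] at h8
        rw [Submodule.mem_bot]
        funext i
        have h9 := hvec z (k0, i)
        rw [h8] at h9
        simpa using h9.symm
      · rw [eq_top_iff]
        intro z _
        rw [hmem, h]
        trivial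
    refine ⟨t, fun i j => ?_⟩
    have h10 : (Pi.single j (1 : K) : Fin u → K) ∈ U := by rw [hUtop]; trivial
    rw [hU, Module.End.mem_eigenspace_iff, Matrix.toLin'_apply, Matrix.mulVec_single_one] at h10
    have h11 := congrFun h10 i
    change W i j = _ at h11
    change W i j = _
    rw [h11]
    simp [Pi.single_apply]
  choose Y hY using hblk
  refine ⟨Matrix.of Y, ?_⟩
  ext ⟨k, i⟩ ⟨l, j⟩
  rw [hY, kr_apply, Matrix.one_apply]
  split_ifs <;> simp

/-- the change of basis -/
theorem conj_eq {ι : Type} [Fintype ι] [DecidableEq ι] (b : Module.Basis ι K (Fin n → K))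
    (e : Fin n ≃ ι) : ∃ R : Matrix.GeneralLinearGroup (Fin n) K,
      ∀ x : Matrix (Fin n) (Fin n) K,
        ((R⁻¹ : Matrix.GeneralLinearGroup (Fin n) K) : Matrix (Fin n) (Fin n) K) * x *
            (R : Matrix (Fin n) (Fin n) K) =
          (LinearMap.toMatrix b b (Matrix.toLin' x)).submatrix e e := by
  let B := b.reindex e.symm
  let R : Matrix.GeneralLinearGroup (Fin n) K :=
    ⟨(Pi.basisFun K (Fin n)).toMatrix B, B.toMatrix (Pi.basisFun K (Fin n)),
      Module.Basis.toMatrix_mul_toMatrix_flip _ _, Module.Basis.toMatrix_mul_toMatrix_flip _ _⟩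
  refine ⟨R, fun x => ?_⟩
  change B.toMatrix (Pi.basisFun K (Fin n)) * x * (Pi.basisFun K (Fin n)).toMatrix B = _
  have h1 : x = LinearMap.toMatrix (Pi.basisFun K (Fin n)) (Pi.basisFun K (Fin n))
      (Matrix.toLin' x) := by
    rw [LinearMap.toMatrix_eq_toMatrix', LinearMap.toMatrix'_toLin']
  conv_lhs => rw [h1]
  rw [basis_toMatrix_mul_linearMap_toMatrix_mul_basis_toMatrix]
  ext i j
  rw [LinearMap.toMatrix_apply, Matrix.submatrix_apply, LinearMap.toMatrix_apply]
  simp [B]

end mat

end TNS84

theorem st_TNS (hSSL : ST_SSL) : ST_TNS := by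
  intro K _ _ _ n ψ a C hn hirs hidl
  obtain ⟨r, u, b, h1, h2⟩ := TNS84.mtens C hn a hirs.2.2.1 (hSSL K n ψ a C hirs hidl)
  have hcard : Fintype.card (Fin n) = Fintype.card (Fin r × Fin u) := by
    rw [← Module.finrank_eq_card_basis b, Fintype.card_fin, Module.finrank_fin_fun]
  obtain ⟨R, hR⟩ := TNS84.conj_eq b (Fintype.equivOfCardEq hcard)
  refine ⟨r, u, Fintype.equivOfCardEq hcard, R, fun x hx => ?_, fun y hy => ?_⟩
  · obtain ⟨X, hX⟩ := h1 x hx
    exact ⟨X, by rw [hR, hX]⟩
  · obtain ⟨Y, hY⟩ := TNS84.scal C hn a hirs.2.2.1 (hSSL K n ψ a C hirs hidl) b h1 h2 y hy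
    exact ⟨Y, by rw [hR, hY]⟩

end MT
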